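import Pool.Agent.H97.LI.Sys

/-! Simultaneous linear relations between ordinates of zeros of zeta (helper97): induction over
the forms, and the large deviation bound. -/

set_option autoImplicit false

open Finset

namespace Pool.Agent.H97.LI

open Pool.Agent.H452R4.LI
open Pool.Agent.H452R4.LI.CORaux

open Classical in
theorem sys (hRH : RiemannHypothesis) {m : ℕ} {ι : Type} [LinearOrder ι]
    (r : ι → Fin m → ℝ) (i j : ι → Fin m) (hij : ∀ t, i t ≠ j t) (hi : ∀ t, r t (i t) ≠ 0)
    (hj : ∀ t, r t (j t) ≠ 0) (hpriv : ∀ s t, s < t → r s (i t) = 0 ∨ r s (j t) = 0)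
    (K η : ℝ) (hK : 0 < K) (hη : 0 < η) (S : Finset ι) :
    ∀ ε : ℝ, 0 < ε →
    ∃ T1 : ℝ, ∀ T : ℝ, T1 ≤ T → ∀ (c : ι → ℝ), (∀ t, |c t| ≤ K * T) →
      ∀ A : Fin m → Finset ℝ,
      (∀ l, ∀ a ∈ A l, |a| ≤ T) → (∀ l, dens (A l) (K * Real.log T)) →
      (∀ l, η * (T * Real.log T) ≤ (A l).card) →
      (((Fintype.piFinset A).filter (fun x : Fin m → ℝ =>
        ∀ s ∈ S, Z (lin (r s) (c s) x))).card : ℝ) ≤
      ((1 / 2) ^ S.card + ε) * ∏ l, ((A l).card : ℝ) := by
  induction S using Finset.induction_on_max with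
  | empty =>
    intro ε hε
    refine ⟨0, fun T _ c _ A _ _ _ => ?_⟩
    have h : (0 : ℝ) ≤ ∏ l, ((A l).card : ℝ) := prod_nonneg (fun _ _ => Nat.cast_nonneg _)
    simp only [notMem_empty, false_imp_iff, implies_true, filter_true, Fintype.card_piFinset,
      card_empty, pow_zero]
    push_cast
    nlinarith
  | insert a S hmax ih =>
    intro ε hε
    have haS : a ∉ S := fun h => lt_irrefl _ (hmax a h)
    have hε2 : 0 < ε / (2 * (2 + ε)) := by positivity
    obtain ⟨T1, hT1⟩ := ih ε hε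
    obtain ⟨T2, hT2⟩ := peel hRH S r (r a) (i a) (j a) (hij a) (hi a) (hj a)
      (fun s hs => hpriv s a (hmax s hs)) K η (ε / (2 * (2 + ε))) hK hη hε2
    refine ⟨max T1 T2, fun T hT c hc A hA hd hcard => ?_⟩
    have h1 := hT1 T ((le_max_left _ _).trans hT) c hc A hA hd hcard
    have h2 := hT2 T ((le_max_right _ _).trans hT) c (c a) (hc a) A hA hd hcard
    have hP : (0 : ℝ) ≤ ∏ l, ((A l).card : ℝ) := prod_nonneg (fun _ _ => Nat.cast_nonneg _)
    have e : (Fintype.piFinset A).filter (fun x : Fin m → ℝ =>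
        ∀ s ∈ insert a S, Z (lin (r s) (c s) x)) =
        (Fintype.piFinset A).filter (fun x : Fin m → ℝ =>
        (∀ s ∈ S, Z (lin (r s) (c s) x)) ∧ Z (lin (r a) (c a) x)) := by
      ext x
      simp only [mem_filter, forall_mem_insert]
      tauto
    rw [e, card_insert_of_notMem haS]
    refine h2.trans ?_
    set e2 : ℝ := ε / (2 * (2 + ε)) with he2
    have h3 : (1 / 2 + e2) * (((Fintype.piFinset A).filter (fun x : Fin m → ℝ =>
        ∀ s ∈ S, Z (lin (r s) (c s) x))).card : ℝ) ≤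
        (1 / 2 + e2) * (((1 / 2) ^ S.card + ε) * ∏ l, ((A l).card : ℝ)) :=
      mul_le_mul_of_nonneg_left h1 (by positivity)
    refine (add_le_add_left h3 _).trans ?_
    have h4 : (1 / 2 : ℝ) ^ S.card ≤ 1 := pow_le_one₀ (by norm_num) (by norm_num)
    have h5 : e2 * (2 + ε) = ε / 2 := by rw [he2]; field_simp
    have h6 : (1 / 2 + e2) * ((1 / 2) ^ S.card + ε) + e2 ≤ (1 / 2) ^ (S.card + 1) + ε := by
      rw [pow_succ]
      nlinarith
    calc (1 / 2 + e2) * (((1 / 2) ^ S.card + ε) * ∏ l, ((A l).card : ℝ)) +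
          e2 * ∏ l, ((A l).card : ℝ) =
        ((1 / 2 + e2) * ((1 / 2) ^ S.card + ε) + e2) * ∏ l, ((A l).card : ℝ) := by ring
      _ ≤ _ := mul_le_mul_of_nonneg_right h6 hP

/-- `exp (l Y)` as a sum over subsets. -/
lemma exp_count {ι : Type} [Fintype ι] [DecidableEq ι] (P : ι → Prop) [DecidablePred P]
    (l : ℝ) :
    Real.exp (l * (univ.filter P).card) =
      ∑ S : Finset ι, (Real.exp l - 1) ^ S.card * (if (∀ s ∈ S, P s) then 1 else 0) := by
  have h1 : Real.exp (l * (univ.filter P).card) =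
      ∏ t : ι, (1 + (Real.exp l - 1) * (if P t then 1 else 0)) := by
    have : ∀ t : ι, (1 + (Real.exp l - 1) * (if P t then (1 : ℝ) else 0)) =
        if P t then Real.exp l else 1 := by
      intro t
      by_cases h : P t
      · rw [if_pos h, if_pos h]; ring
      · rw [if_neg h, if_neg h]; ring
    simp_rw [this]
    rw [prod_ite, prod_const, prod_const_one, mul_one, ← Real.exp_nat_mul, mul_comm]
  rw [h1, prod_one_add, powerset_univ]
  refine sum_congr rfl (fun S _ => ?_)
  rw [prod_mul_distrib, prod_const]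
  congr 1
  by_cases h : ∀ s ∈ S, P s
  · rw [if_pos h]
    exact prod_eq_one (fun s hs => by rw [if_pos (h s hs)])
  · rw [if_neg h]
    push Not at h
    obtain ⟨s, hs, hPs⟩ := h
    exact prod_eq_zero hs (by rw [if_neg hPs])

lemma hoeff (δ : ℝ) (k : ℕ) :
    Real.exp (-(4 * δ * ((1 / 2 + δ) * k))) * (1 + (Real.exp (4 * δ) - 1) * (1 / 2)) ^ k ≤
      Real.exp (-(2 * δ ^ 2 * k)) := by
  have h1 : 1 + (Real.exp (4 * δ) - 1) * (1 / 2) = Real.exp (2 * δ) * Real.cosh (2 * δ) := by
    have e1 : Real.exp (2 * δ) * Real.exp (2 * δ) = Real.exp (4 * δ) := by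
      rw [← Real.exp_add]; ring_nf
    have e2 : Real.exp (2 * δ) * Real.exp (-(2 * δ)) = 1 := by
      rw [← Real.exp_add]; simp
    rw [Real.cosh_eq, ← e1]
    linear_combination (-1 / 2 : ℝ) * e2
  have h2 : Real.cosh (2 * δ) ≤ Real.exp (2 * δ ^ 2) := by
    refine (Real.cosh_le_exp_half_sq _).trans (le_of_eq ?_)
    congr 1; ring
  have h3 : 1 + (Real.exp (4 * δ) - 1) * (1 / 2) ≤ Real.exp (2 * δ + 2 * δ ^ 2) := by
    rw [h1, Real.exp_add]
    exact mul_le_mul_of_nonneg_left h2 (Real.exp_pos _).le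
  have h0 : 0 ≤ 1 + (Real.exp (4 * δ) - 1) * (1 / 2) := by
    have := Real.exp_pos (4 * δ); linarith
  calc Real.exp (-(4 * δ * ((1 / 2 + δ) * k))) * (1 + (Real.exp (4 * δ) - 1) * (1 / 2)) ^ k ≤
      Real.exp (-(4 * δ * ((1 / 2 + δ) * k))) * (Real.exp (2 * δ + 2 * δ ^ 2)) ^ k :=
        mul_le_mul_of_nonneg_left (pow_le_pow_left₀ h0 h3 k) (Real.exp_pos _).le
    _ = Real.exp (-(2 * δ ^ 2 * k)) := by
        rw [← Real.exp_nat_mul, ← Real.exp_add]
        congr 1; ring

open Classical in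
/-- large deviations from bounds for all subsystems -/
theorem deviation {ι X : Type} [Fintype ι] (F : Finset X) (P : ι → X → Prop) (N ε : ℝ)
    (hF : (F.card : ℝ) ≤ N) (hε : 0 ≤ ε)
    (h : ∀ S : Finset ι, ((F.filter (fun x => ∀ s ∈ S, P s x)).card : ℝ) ≤
      ((1 / 2) ^ S.card + ε * Real.exp (-(Fintype.card ι : ℝ))) * N) (δ : ℝ) (hδ : 0 ≤ δ) :
    ((F.filter (fun x => (1 / 2 + δ) * Fintype.card ι ≤
      ((univ.filter (fun t => P t x)).card : ℝ))).card : ℝ) ≤
      (Real.exp (-(2 * δ ^ 2 * Fintype.card ι)) + ε) * N := by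
  have hN : 0 ≤ N := le_trans (Nat.cast_nonneg _) hF
  set k : ℕ := Fintype.card ι with hk
  by_cases hδ2 : δ ≤ 1 / 2
  swap
  · push Not at hδ2
    rcases Nat.eq_zero_or_pos k with hk0 | hk0
    · have h1 : ((F.filter (fun x => (1 / 2 + δ) * k ≤
          ((univ.filter (fun t => P t x)).card : ℝ))).card : ℝ) ≤ F.card := by
        exact_mod_cast card_filter_le _ _
      refine h1.trans (hF.trans ?_)
      rw [hk0]
      simp only [Nat.cast_zero, mul_zero, neg_zero, Real.exp_zero]
      nlinarith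
    · have h1 : F.filter (fun x => (1 / 2 + δ) * k ≤
          ((univ.filter (fun t => P t x)).card : ℝ)) = ∅ := by
        rw [filter_eq_empty_iff]
        intro x _ hx
        have h2 : ((univ.filter (fun t => P t x)).card : ℝ) ≤ k := by
          exact_mod_cast card_le_univ _
        have hk1 : (1 : ℝ) ≤ k := by exact_mod_cast hk0
        nlinarith
      rw [h1, card_empty, Nat.cast_zero]
      positivity
  have hk0 : (0 : ℝ) ≤ k := Nat.cast_nonneg _
  set l : ℝ := 4 * δ with hl
  have hl0 : 0 ≤ l := by positivity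
  have he : 0 ≤ Real.exp l - 1 := by linarith [Real.one_le_exp hl0]
  -- sum of exponentials
  have h1 : ∑ x ∈ F, Real.exp (l * ((univ.filter (fun t => P t x)).card : ℝ)) ≤
      ((1 + (Real.exp l - 1) * (1 / 2)) ^ k + ε * Real.exp (-k) * Real.exp (l * k)) * N := by
    calc ∑ x ∈ F, Real.exp (l * ((univ.filter (fun t => P t x)).card : ℝ)) =
        ∑ S : Finset ι, (Real.exp l - 1) ^ S.card *
          ((F.filter (fun x => ∀ s ∈ S, P s x)).card : ℝ) := by
          simp_rw [exp_count (fun t => P t _) l]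
          rw [sum_comm]
          refine sum_congr rfl (fun S _ => ?_)
          rw [← mul_sum, sum_boole]
      _ ≤ ∑ S : Finset ι, (Real.exp l - 1) ^ S.card *
          (((1 / 2) ^ S.card + ε * Real.exp (-k)) * N) :=
          sum_le_sum (fun S _ => mul_le_mul_of_nonneg_left (h S) (pow_nonneg he _))
      _ = (∑ S : Finset ι, ((Real.exp l - 1) * (1 / 2)) ^ S.card * 1 ^ (k - S.card)) * N +
          (∑ S : Finset ι, (Real.exp l - 1) ^ S.card * 1 ^ (k - S.card)) *
            (ε * Real.exp (-k)) * N := by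
          rw [sum_mul, sum_mul, sum_mul, ← sum_add_distrib]
          refine sum_congr rfl (fun S _ => ?_)
          rw [one_pow, mul_pow]; ring
      _ = _ := by
          have e1 := sum_pow_mul_eq_add_pow ((Real.exp l - 1) * (1 / 2)) 1 (univ : Finset ι)
          have e2 := sum_pow_mul_eq_add_pow (Real.exp l - 1) 1 (univ : Finset ι)
          rw [powerset_univ, card_univ] at e1 e2
          rw [← hk] at e1 e2
          rw [e1, e2, sub_add_cancel, ← Real.exp_nat_mul]
          ring_nf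
  -- Markov
  have h2 : ((F.filter (fun x => (1 / 2 + δ) * k ≤
      ((univ.filter (fun t => P t x)).card : ℝ))).card : ℝ) ≤
      Real.exp (-(l * ((1 / 2 + δ) * k))) *
        ∑ x ∈ F, Real.exp (l * ((univ.filter (fun t => P t x)).card : ℝ)) := by
    rw [mul_sum]
    calc ((F.filter (fun x => (1 / 2 + δ) * k ≤
          ((univ.filter (fun t => P t x)).card : ℝ))).card : ℝ) =
        ∑ x ∈ F.filter (fun x => (1 / 2 + δ) * k ≤
          ((univ.filter (fun t => P t x)).card : ℝ)), (1 : ℝ) := by simp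
      _ ≤ ∑ x ∈ F.filter (fun x => (1 / 2 + δ) * k ≤
          ((univ.filter (fun t => P t x)).card : ℝ)), Real.exp (-(l * ((1 / 2 + δ) * k))) *
            Real.exp (l * ((univ.filter (fun t => P t x)).card : ℝ)) := by
          refine sum_le_sum (fun x hx => ?_)
          rw [← Real.exp_add]
          apply Real.one_le_exp
          have := mul_le_mul_of_nonneg_left (mem_filter.mp hx).2 hl0
          linarith
      _ ≤ _ := by
          refine sum_le_sum_of_subset_of_nonneg (filter_subset _ _) (fun x _ _ => ?_)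
          positivity
  refine h2.trans ?_
  refine (mul_le_mul_of_nonneg_left h1 (Real.exp_pos _).le).trans ?_
  have h3 := hoeff δ k
  rw [← hl] at h3
  have h4 : Real.exp (-(l * ((1 / 2 + δ) * k))) * (Real.exp (-k) * Real.exp (l * k)) ≤ 1 := by
    rw [← Real.exp_add, ← Real.exp_add]
    apply Real.exp_le_one_iff.mpr
    rw [hl]
    nlinarith [mul_nonneg hδ hk0, mul_nonneg (sub_nonneg.mpr hδ2) hk0,
      mul_nonneg (mul_nonneg hδ hδ) hk0]
  calc Real.exp (-(l * ((1 / 2 + δ) * k))) *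
        (((1 + (Real.exp l - 1) * (1 / 2)) ^ k + ε * Real.exp (-k) * Real.exp (l * k)) * N) =
      (Real.exp (-(l * ((1 / 2 + δ) * k))) * (1 + (Real.exp l - 1) * (1 / 2)) ^ k +
        ε * (Real.exp (-(l * ((1 / 2 + δ) * k))) * (Real.exp (-k) * Real.exp (l * k)))) * N := by
        ring
    _ ≤ (Real.exp (-(2 * δ ^ 2 * k)) + ε * 1) * N := by
        apply mul_le_mul_of_nonneg_right _ hN
        exact add_le_add h3 (mul_le_mul_of_nonneg_left h4 hε)
    _ = _ := by rw [mul_one]

end Pool.Agent.H97.LI
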