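import Pool.Graph.R_seed8.Results.MP_0ec205_nt.RelationsHalf

/-! Simultaneous linear relations between ordinates of zeros of zeta (helper97).  Peeling one
relation after the other off a system in which every relation has a private pair of variables. -/

set_option autoImplicit false

open Finset

namespace Pool.Agent.H97.LI

open Pool.Agent.H452R4.LI
open Pool.Agent.H452R4.LI.CORaux

/-- `1/2 + i t` is a zero of zeta -/
def Z (t : ℝ) : Prop := riemannZeta (1 / 2 + Complex.I * (t : ℂ)) = 0

/-- the value of an affine linear form -/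
def lin {m : ℕ} (r : Fin m → ℝ) (c : ℝ) (x : Fin m → ℝ) : ℝ := ∑ l, r l * x l + c

theorem genThm : S_GEN := gen gi (bil (mv sch gau)) plain exc spl

theorem rh0 (hRH : RiemannHypothesis) : RH0 := by
  intro s h0 h1 hz
  refine hRH s hz ?_ ?_
  · rintro ⟨n, hn⟩
    rw [hn] at h0
    simp at h0
    have : (0 : ℝ) ≤ n := n.cast_nonneg
    linarith
  · rintro rfl
    simp at h1

lemma lin_update {m : ℕ} (r : Fin m → ℝ) (c : ℝ) (x : Fin m → ℝ) (i : Fin m) (a : ℝ)
    (h : r i = 0) : lin r c (Function.update x i a) = lin r c x := by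
  unfold lin
  congr 1
  refine sum_congr rfl (fun l _ => ?_)
  by_cases hl : l = i
  · subst hl; rw [h]; ring
  · rw [Function.update_of_ne hl]

/-- the form, as a function of two of the variables -/
lemma lin_two {m : ℕ} (r : Fin m → ℝ) (c : ℝ) (x : Fin m → ℝ) (i j : Fin m) (hij : i ≠ j) :
    ∃ c' : ℝ, (∀ a b : ℝ, lin r c (Function.update (Function.update x i a) j b) =
      r i * a + r j * b + c') ∧ ∀ T : ℝ, (∀ l, |x l| ≤ T) → |c'| ≤ |c| + (∑ l, |r l|) * T := by
  refine ⟨c + ∑ l ∈ (univ.erase i).erase j, r l * x l, ?_, ?_⟩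
  · intro a b
    unfold lin
    rw [← add_sum_erase univ _ (mem_univ i), ← add_sum_erase (univ.erase i) _
      (mem_erase.mpr ⟨hij.symm, mem_univ j⟩)]
    have e0 : Function.update (Function.update x i a) j b i = a := by
      rw [Function.update_of_ne hij, Function.update_self]
    have e1 : Function.update (Function.update x i a) j b j = b := Function.update_self _ _ _
    have e2 : ∑ l ∈ (univ.erase i).erase j,
        r l * Function.update (Function.update x i a) j b l =
          ∑ l ∈ (univ.erase i).erase j, r l * x l := by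
      refine sum_congr rfl (fun l hl => ?_)
      rw [mem_erase, mem_erase] at hl
      rw [Function.update_of_ne hl.1, Function.update_of_ne hl.2.1]
    rw [e0, e1, e2]; ring
  · intro T hx
    refine (abs_add_le _ _).trans ?_
    gcongr
    calc |∑ l ∈ (univ.erase i).erase j, r l * x l|
        ≤ ∑ l ∈ (univ.erase i).erase j, |r l * x l| := abs_sum_le_sum_abs _ _
      _ ≤ ∑ l ∈ (univ.erase i).erase j, |r l| * T := sum_le_sum (fun l _ => by
          rw [abs_mul]
          exact mul_le_mul_of_nonneg_left (hx l) (abs_nonneg _))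
      _ ≤ ∑ l, |r l| * T := by
          refine sum_le_sum_of_subset_of_nonneg (subset_univ _) (fun l _ _ => ?_)
          exact mul_nonneg (abs_nonneg _) ((abs_nonneg _).trans (hx l))
      _ = (∑ l, |r l|) * T := by rw [sum_mul]

open Classical in
/-- the box bound for one form in two variables -/
theorem box (hRH : RiemannHypothesis) (a b K κ ε : ℝ) (ha : a ≠ 0) (hb : b ≠ 0) (hκ : 0 < κ)
    (hε : 0 < ε) (hK : 0 < K) :
    ∃ T1 : ℝ, ∀ T : ℝ, T1 ≤ T → ∀ (A B : Finset ℝ) (c : ℝ), (∀ x ∈ A, |x| ≤ T) →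
      (∀ x ∈ B, |x| ≤ T) → dens A (K * Real.log T) → dens B (K * Real.log T) → |c| ≤ K * T →
      (((A ×ˢ B).filter (fun p : ℝ × ℝ => Z (a * p.1 + b * p.2 + c))).card : ℝ) ≤
        (1 / 2 + ε) * (A.card * B.card) + κ * (T * Real.log T) ^ 2 := by
  obtain ⟨R, hR⟩ : ∃ R : ℝ, R = |a| + |b| + 1 := ⟨_, rfl⟩
  have ha' : 0 < |a| := abs_pos.mpr ha
  have hb' : 0 < |b| := abs_pos.mpr hb
  have hR1 : 1 ≤ R := by rw [hR]; linarith
  have hRpos : 0 < R := by linarith
  obtain ⟨L, hL⟩ : ∃ L : ℝ, L = (1 / |a| + 1) + (1 / |b| + 1) := ⟨_, rfl⟩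
  have hL0 : 0 ≤ 1 / |a| := by positivity
  have hL1 : 0 ≤ 1 / |b| := by positivity
  have hLpos : 0 < L := by rw [hL]; linarith
  have hη' : 0 < κ / (R ^ 2 * K ^ 2 * L ^ 2) := by positivity
  obtain ⟨T1, hT1⟩ := genThm (rh0 hRH) (κ / (R ^ 2 * K ^ 2 * L ^ 2)) ε K hη' hε hK
  refine ⟨max 3 T1, ?_⟩
  intro T hT A B c hA hB hdA hdB hc
  have hT3 : 3 ≤ T := (le_max_left _ _).trans hT
  have hT0 : 0 < T := by linarith
  have hTT : T1 ≤ R * T := by
    have h := (le_max_right _ _).trans hT
    nlinarith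
  have hlog : 0 < Real.log T := Real.log_pos (by linarith)
  have hXle : (((A ×ˢ B).filter (fun p : ℝ × ℝ => Z (a * p.1 + b * p.2 + c))).card : ℝ) ≤
      A.card * B.card := by
    have h := card_filter_le (A ×ˢ B) (fun p : ℝ × ℝ => Z (a * p.1 + b * p.2 + c))
    rw [card_product] at h
    exact_mod_cast h
  by_cases hbig : κ * (T * Real.log T) ^ 2 ≤ A.card * B.card
  swap
  · push Not at hbig
    have h0 : (0 : ℝ) ≤ (1 / 2 + ε) * (A.card * B.card) := by positivity
    linarith
  have inj0 : Function.Injective (fun x : ℝ => a * x) := mul_right_injective₀ ha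
  have inj1 : Function.Injective (fun x : ℝ => b * x) := mul_right_injective₀ hb
  have c0 : (A.image (fun x => a * x)).card = A.card := card_image_of_injective _ inj0
  have c1 : (B.image (fun x => b * x)).card = B.card := card_image_of_injective _ inj1
  have hCl : 0 < K * Real.log T := by positivity
  have hd0 : dens (A.image (fun x => a * x)) (K * Real.log T * L) :=
    dens_mono (dens_image hdA ha) (by
      apply mul_le_mul_of_nonneg_left _ hCl.le
      rw [hL]; linarith)
  have hd1 : dens (B.image (fun x => b * x)) (K * Real.log T * L) :=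
    dens_mono (dens_image hdB hb) (by
      apply mul_le_mul_of_nonneg_left _ hCl.le
      rw [hL]; linarith)
  have hbd0 : ∀ x ∈ A.image (fun x => a * x), |x| ≤ R * T := by
    intro x hx
    rw [mem_image] at hx
    obtain ⟨y, hy, rfl⟩ := hx
    rw [abs_mul]
    exact mul_le_mul (by rw [hR]; linarith) (hA y hy) (abs_nonneg _) hRpos.le
  have hbd1 : ∀ x ∈ B.image (fun x => b * x), |x| ≤ R * T := by
    intro x hx
    rw [mem_image] at hx
    obtain ⟨y, hy, rfl⟩ := hx
    rw [abs_mul]
    exact mul_le_mul (by rw [hR]; linarith) (hB y hy) (abs_nonneg _) hRpos.le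
  have hbig' : κ / (R ^ 2 * K ^ 2 * L ^ 2) * (R * T) ^ 2 * (K * Real.log T * L) ^ 2 ≤
      ((A.image (fun x => a * x)).card : ℝ) * ((B.image (fun x => b * x)).card : ℝ) := by
    rw [c0, c1]
    have e : κ / (R ^ 2 * K ^ 2 * L ^ 2) * (R * T) ^ 2 * (K * Real.log T * L) ^ 2 =
        κ * (T * Real.log T) ^ 2 := by
      field_simp
    rw [e]
    exact hbig
  have hcT : |c| ≤ K * (R * T) := by
    refine hc.trans ?_
    apply mul_le_mul_of_nonneg_left _ hK.le
    nlinarith
  have h := hT1 (R * T) hTT (A.image (fun x => a * x)) (B.image (fun x => b * x))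
    (K * Real.log T * L) c hbd0 hbd1 hd0 hd1 hbig' hcT
  rw [c0, c1] at h
  have h2 : ((A ×ˢ B).filter (fun p : ℝ × ℝ => Z (a * p.1 + b * p.2 + c))).card ≤
      ((A.image (fun x => a * x) ×ˢ B.image (fun x => b * x)).filter (fun x : ℝ × ℝ =>
        riemannZeta (1 / 2 + Complex.I * ((x.1 + x.2 + c : ℝ) : ℂ)) = 0)).card := by
    refine card_le_card_of_injOn (fun p : ℝ × ℝ => (a * p.1, b * p.2)) ?_ ?_
    · intro p hp
      rw [mem_coe, mem_filter, mem_product] at hp
      rw [mem_coe, mem_filter, mem_product]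
      exact ⟨⟨mem_image_of_mem _ hp.1.1, mem_image_of_mem _ hp.1.2⟩, hp.2⟩
    · intro p _ q _ hpq
      rw [Prod.mk.injEq] at hpq
      exact Prod.ext (inj0 hpq.1) (inj1 hpq.2)
  have h3 : (((A ×ˢ B).filter (fun p : ℝ × ℝ => Z (a * p.1 + b * p.2 + c))).card : ℝ) ≤
      (((A.image (fun x => a * x) ×ˢ B.image (fun x => b * x)).filter (fun x : ℝ × ℝ =>
        riemannZeta (1 / 2 + Complex.I * ((x.1 + x.2 + c : ℝ) : ℂ)) = 0)).card : ℝ) := by
    exact_mod_cast h2
  have h4 : 0 ≤ κ * (T * Real.log T) ^ 2 := by positivity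
  have h5 := h3.trans h
  linarith

lemma dens_subset {A B : Finset ℝ} {w : ℝ} (h : dens B w) (hAB : A ⊆ B) : dens A w := by
  intro x
  refine le_trans ?_ (h x)
  exact_mod_cast card_le_card (filter_subset_filter _ hAB)

open Classical in
/-- peeling: one more form with a private pair of variables costs a factor `1/2` -/
theorem peel (hRH : RiemannHypothesis) {m : ℕ} {ι : Type} (S : Finset ι)
    (r : ι → Fin m → ℝ) (r0 : Fin m → ℝ) (i j : Fin m) (hij : i ≠ j) (hi : r0 i ≠ 0)
    (hj : r0 j ≠ 0) (hpriv : ∀ s ∈ S, r s i = 0 ∨ r s j = 0) (K η ε : ℝ) (hK : 0 < K)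
    (hη : 0 < η) (hε : 0 < ε) :
    ∃ T1 : ℝ, ∀ T : ℝ, T1 ≤ T → ∀ (c : ι → ℝ) (c0 : ℝ), |c0| ≤ K * T →
      ∀ A : Fin m → Finset ℝ,
      (∀ l, ∀ a ∈ A l, |a| ≤ T) → (∀ l, dens (A l) (K * Real.log T)) →
      (∀ l, η * (T * Real.log T) ≤ (A l).card) →
      (((Fintype.piFinset A).filter (fun x : Fin m → ℝ =>
        (∀ s ∈ S, Z (lin (r s) (c s) x)) ∧ Z (lin r0 c0 x))).card : ℝ) ≤
      (1 / 2 + ε) * ((Fintype.piFinset A).filter (fun x : Fin m → ℝ =>
        ∀ s ∈ S, Z (lin (r s) (c s) x))).card + ε * ∏ l, ((A l).card : ℝ) := by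
  obtain ⟨Rs, hRs⟩ : ∃ Rs : ℝ, Rs = ∑ l, |r0 l| := ⟨_, rfl⟩
  have hRs0 : 0 ≤ Rs := by rw [hRs]; exact sum_nonneg (fun _ _ => abs_nonneg _)
  obtain ⟨T1, hT1⟩ := box hRH (r0 i) (r0 j) (K + Rs) (ε * η ^ 2) ε hi hj (by positivity) hε
    (by positivity)
  refine ⟨max 3 T1, ?_⟩
  intro T hT c c0 hc0 A hA hd hcard
  have hT3 : 3 ≤ T := (le_max_left _ _).trans hT
  have hT0 : 0 < T := by linarith
  have hlog : 0 < Real.log T := Real.log_pos (by linarith)
  have hbox := hT1 T ((le_max_right _ _).trans hT)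
  have hTlog : 0 < η * (T * Real.log T) := by positivity
  have hcp : ∀ l, 0 < ((A l).card : ℝ) := fun l => lt_of_lt_of_le hTlog (hcard l)
  have hkey : ∀ x ∈ Fintype.piFinset A,
      ∑ p ∈ A i ×ˢ A j, (fun x : Fin m → ℝ => (if (∀ s ∈ S, Z (lin (r s) (c s) x)) ∧
        Z (lin r0 c0 x) then (1 : ℝ) else 0)) (Function.update (Function.update x i p.1) j p.2) ≤
      (1 / 2 + ε) * (∑ p ∈ A i ×ˢ A j, (fun x : Fin m → ℝ =>
        (if (∀ s ∈ S, Z (lin (r s) (c s) x)) then (1 : ℝ) else 0))
          (Function.update (Function.update x i p.1) j p.2)) +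
        ε * ((A i).card * (A j).card) := by
    intro x hx
    rw [Fintype.mem_piFinset] at hx
    have hxT : ∀ l, |x l| ≤ T := fun l => hA l _ (hx l)
    set U : ℝ → Prop := fun a => ∀ s ∈ S, r s j = 0 →
      Z (lin (r s) (c s) (Function.update x i a)) with hU
    set V : ℝ → Prop := fun b => ∀ s ∈ S, r s j ≠ 0 →
      Z (lin (r s) (c s) (Function.update x j b)) with hV
    have hsplit : ∀ a b : ℝ, (∀ s ∈ S, Z (lin (r s) (c s)
        (Function.update (Function.update x i a) j b))) ↔ U a ∧ V b := by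
      intro a b
      constructor
      · intro h
        refine ⟨fun s hs hsj => ?_, fun s hs hsj => ?_⟩
        · have := h s hs
          rwa [lin_update _ _ _ _ _ hsj] at this
        · have hsi : r s i = 0 := (hpriv s hs).resolve_right hsj
          have := h s hs
          rwa [Function.update_comm hij, lin_update _ _ _ _ _ hsi] at this
      · rintro ⟨hu, hv⟩ s hs
        by_cases hsj : r s j = 0
        · rw [lin_update _ _ _ _ _ hsj]
          exact hu s hs hsj
        · have hsi : r s i = 0 := (hpriv s hs).resolve_right hsj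
          rw [Function.update_comm hij, lin_update _ _ _ _ _ hsi]
          exact hv s hs hsj
    obtain ⟨c', hc', hc'b⟩ := lin_two r0 c0 x i j hij
    have hc'T : |c'| ≤ (K + Rs) * T := by
      refine (hc'b T hxT).trans ?_
      rw [← hRs, add_mul]
      linarith
    have h := hbox ((A i).filter U) ((A j).filter V) c'
      (fun y hy => hA i y (mem_filter.mp hy).1) (fun y hy => hA j y (mem_filter.mp hy).1)
      (dens_mono (dens_subset (hd i) (filter_subset _ _)) (by nlinarith))
      (dens_mono (dens_subset (hd j) (filter_subset _ _)) (by nlinarith)) hc'T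
    have e1 : ∑ p ∈ A i ×ˢ A j, (fun x : Fin m → ℝ => (if (∀ s ∈ S, Z (lin (r s) (c s) x)) ∧
        Z (lin r0 c0 x) then (1 : ℝ) else 0)) (Function.update (Function.update x i p.1) j p.2) =
        ((((A i).filter U ×ˢ (A j).filter V).filter (fun p : ℝ × ℝ =>
          Z (r0 i * p.1 + r0 j * p.2 + c'))).card : ℝ) := by
      have e : (A i ×ˢ A j).filter (fun p : ℝ × ℝ => (U p.1 ∧ V p.2) ∧
          Z (r0 i * p.1 + r0 j * p.2 + c')) =
          ((A i).filter U ×ˢ (A j).filter V).filter (fun p : ℝ × ℝ =>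
            Z (r0 i * p.1 + r0 j * p.2 + c')) := by
        ext p
        simp only [mem_filter, mem_product]
        tauto
      rw [← e, ← sum_boole]
      refine sum_congr rfl (fun p _ => ?_)
      simp only [hsplit, hc']
    have e2 : ∑ p ∈ A i ×ˢ A j, (fun x : Fin m → ℝ =>
        (if (∀ s ∈ S, Z (lin (r s) (c s) x)) then (1 : ℝ) else 0))
          (Function.update (Function.update x i p.1) j p.2) =
        (((A i).filter U).card : ℝ) * ((A j).filter V).card := by
      have e : (A i ×ˢ A j).filter (fun p : ℝ × ℝ => U p.1 ∧ V p.2) =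
          (A i).filter U ×ˢ (A j).filter V := by
        ext p
        simp only [mem_filter, mem_product]
        tauto
      rw [← Nat.cast_mul, ← card_product, ← e, ← sum_boole]
      refine sum_congr rfl (fun p _ => ?_)
      simp only [hsplit]
    rw [e1, e2]
    refine h.trans ?_
    have h1 : ε * η ^ 2 * (T * Real.log T) ^ 2 ≤ ε * ((A i).card * (A j).card) := by
      have := mul_le_mul (hcard i) (hcard j) hTlog.le (hcp i).le
      nlinarith
    linarith
  have hle := sum_le_sum hkey
  have a1 := avg A i j hij (fun x : Fin m → ℝ => (if (∀ s ∈ S, Z (lin (r s) (c s) x)) ∧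
        Z (lin r0 c0 x) then (1 : ℝ) else 0))
  have a2 := avg A i j hij (fun x : Fin m → ℝ =>
        (if (∀ s ∈ S, Z (lin (r s) (c s) x)) then (1 : ℝ) else 0))
  rw [sum_add_distrib, ← mul_sum, a1, a2, sum_const,
    Fintype.card_piFinset, nsmul_eq_mul, sum_boole, sum_boole] at hle
  have hpos : 0 < (((A i).card : ℝ) * ((A j).card : ℝ)) := mul_pos (hcp i) (hcp j)
  refine le_of_mul_le_mul_left ?_ hpos
  refine hle.trans (le_of_eq ?_)
  push_cast
  ring

end Pool.Agent.H97.LI
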